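import Mathlib
import Pool.Agent.Helper700.Defs
import Pool.Agent.Helper700.Final

/-!
A connected open subset `M` of `ℂ × ℂ = ℝ⁴` with a symplectic form for which the compactly
supported Hamiltonian group is not `C⁰`-closed in `Symp_{c,0}`.

The manifold: with `(ζ, η)` the coordinates, `M` is the set of the points other than `0` with
`ζ ≠ 0` or `Re η ∉ [-2,-1] ∪ [1,2]`; the form is
`dx ∧ dy + dz ∧ dp + b(z) dz ∧ dθ` where `ζ = x + i y = |ζ| exp(iθ)`, `η = z + i p` and `b` is a
bump carried by the two intervals, of total masses `1` and `√2`.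
Conjugating the rotations of `ζ` through the two magnetic walls gives compactly supported
symplectic loops whose fluxes around the puncture `0` are dense in `ℝ`; so time-one maps of radial
rotations near the puncture are Hamiltonian for a dense set of values of the flux, and an area
argument shows that the set of the values for which they are Hamiltonian is countable.
-/

open Set Filter Topology
open Pool.Agent.Helper700

namespace Pool.Agent.Results.MP_e3d95b_gt.DenseFlux

theorem result : ∃ (M : Set (ℂ × ℂ)) (Ω : ℂ × ℂ → ℂ × ℂ →L[ℝ] ℂ × ℂ →L[ℝ] ℝ),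
    SymplecticOn M Ω ∧ IsConnected M ∧
    ∃ ψ ∈ SympC0 M Ω, ψ ∉ HamC M Ω ∧
      ∃ K ⊆ M, IsCompact K ∧ (∀ x ∈ M, x ∉ K → ψ x = x) ∧
        ∃ φ : ℕ → ℂ × ℂ → ℂ × ℂ,
          (∀ j, φ j ∈ HamC M Ω ∧ φ j ∈ SympC0 M Ω ∧ ∀ x ∈ M, x ∉ K → φ j x = x) ∧
          TendstoUniformlyOn φ ψ atTop M := by
  obtain ⟨M, Ω, h1, h2, K, h3, h4, ψ, h5, h6, h7, h8⟩ := main
  exact ⟨M, Ω, h1, h2, ψ, h5, h6, K, h3, h4, h7, h8⟩

end Pool.Agent.Results.MP_e3d95b_gt.DenseFlux
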